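import Pool.Agent.Y192.OG.StA

set_option autoImplicit false

namespace Pool.Agent.Y419.OG

open Pool.Agent.Y192.OG

theorem t_circ : St_circ := by
  intro V _ _ ι _ e he hdep
  classical
  rw [Fintype.not_linearIndependent_iff] at hdep
  -- a relation with minimal support
  let T : Set ℕ := {n | ∃ g : ι → ℂ, ∑ i, g i • e i = 0 ∧ (∃ i, g i ≠ 0) ∧
    (Finset.univ.filter fun i => g i ≠ 0).card = n}
  have hT : ∃ n, n ∈ T := by
    obtain ⟨g, h1, h2⟩ := hdep
    exact ⟨_, g, h1, h2, rfl⟩
  obtain ⟨g, hg1, hg2, hg3⟩ := Nat.find_spec hT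
  have hmin : ∀ h : ι → ℂ, ∑ i, h i • e i = 0 →
      (Finset.univ.filter fun i => h i ≠ 0).card < Nat.find hT → ∀ i, h i = 0 := by
    intro h hh hlt
    by_contra hcon
    push Not at hcon
    exact Nat.find_min hT hlt ⟨h, hh, hcon, rfl⟩
  set s : Finset ι := Finset.univ.filter fun i => g i ≠ 0 with hs
  rw [← hg3] at hmin
  have hsum : ∑ i ∈ s, g i • e i = 0 := by
    rw [← hg1, hs]
    apply Finset.sum_subset (Finset.filter_subset _ _)
    intro x _ hx
    simp only [Finset.mem_filter, Finset.mem_univ, true_and, not_not] at hx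
    rw [hx, zero_smul]
  have hcard : 2 ≤ s.card := by
    by_contra hlt
    have h1 : s.card = 1 := by
      have : 0 < s.card := by
        obtain ⟨i, hi⟩ := hg2
        exact Finset.card_pos.mpr ⟨i, by simp [hs, hi]⟩
      omega
    obtain ⟨i, hi⟩ := Finset.card_eq_one.mp h1
    rw [hi, Finset.sum_singleton] at hsum
    have hgi : g i ≠ 0 := by
      have : i ∈ s := by rw [hi]; exact Finset.mem_singleton_self i
      simpa [hs] using this
    rcases smul_eq_zero.mp hsum with h | h
    · exact hgi h
    · exact he i h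
  obtain ⟨k, hk⟩ : ∃ k, s.card = k + 1 := ⟨s.card - 1, by omega⟩
  let E : Fin (k + 1) ≃ s := (s.equivFinOfCardEq hk).symm
  have hE : ∀ i, g (E i : ι) ≠ 0 := by
    intro i
    have h1 : ∀ x ∈ s, g x ≠ 0 := fun x hx => by
      rw [hs] at hx
      simpa using hx
    exact h1 _ (E i).2
  have hinj : Function.Injective (fun i => (E i : ι)) :=
    Subtype.val_injective.comp E.injective
  refine ⟨k, fun i => (E i : ι), fun i => g (E i : ι), by omega, hinj, hE, ?_, ?_⟩
  · rw [← hsum]
    rw [← Finset.sum_coe_sort s (fun i => g i • e i)]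
    exact Equiv.sum_comp E (fun x : s => g (x : ι) • e (x : ι))
  · rw [Fintype.linearIndependent_iff]
    intro h hh
    let g' : ι → ℂ := fun x => ∑ i : Fin k, if (E i.succ : ι) = x then h i * g (E i.succ : ι) else 0
    have hg'1 : ∑ x, g' x • e x = 0 := by
      rw [← hh]
      simp only [g', Finset.sum_smul, ite_smul, zero_smul]
      rw [Finset.sum_comm]
      apply Finset.sum_congr rfl
      intro i _
      rw [Finset.sum_ite_eq Finset.univ (E i.succ : ι)
        (fun x => (h i * g (E i.succ : ι)) • e x)]
      simp [mul_smul]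
    have hsub : (Finset.univ.filter fun i => g' i ≠ 0) ⊆ s.erase (E 0 : ι) := by
      intro x hx
      simp only [Finset.mem_filter, Finset.mem_univ, true_and] at hx
      obtain ⟨i, _, hi⟩ := Finset.exists_ne_zero_of_sum_ne_zero hx
      have hxi : (E i.succ : ι) = x := by
        by_contra hne
        exact hi (if_neg hne)
      rw [← hxi]
      refine Finset.mem_erase.mpr ⟨?_, (E i.succ).2⟩
      intro heq
      exact Fin.succ_ne_zero i (hinj heq)
    have hlt : (Finset.univ.filter fun i => g' i ≠ 0).card < s.card :=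
      lt_of_le_of_lt (Finset.card_le_card hsub) (Finset.card_erase_lt_of_mem (E 0).2)
    intro i
    have hz := hmin g' hg'1 hlt (E i.succ : ι)
    simp only [g'] at hz
    rw [Finset.sum_eq_single i] at hz
    · rw [if_pos rfl] at hz
      exact (mul_eq_zero.mp hz).resolve_right (hE _)
    · intro b _ hb
      rw [if_neg]
      intro heq
      exact hb (Fin.succ_injective _ (hinj heq))
    · intro hcon
      exact absurd (Finset.mem_univ i) hcon

end Pool.Agent.Y419.OG
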