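import Pool.Agent.Y192.OG.StB

set_option autoImplicit false

namespace Pool.Agent.Y419.OG

open Pool.Agent.Y192.OG
open Filter Metric Set Topology Pool.Agent.W603.BP

theorem cnt_eq {N : ℕ} (c : Curve N) (E : ℂ → ℝ) (R : ℝ) (t : Finset ℂ)
    (h1 : ∀ z ∈ t, c.r0 + 1 ≤ ‖z‖ ∧ ‖z‖ ≤ R)
    (h2 : ∀ z, c.r0 + 1 ≤ ‖z‖ → ‖z‖ ≤ R → E z ≠ 0 → z ∈ t) :
    c.cnt E R = ∑ z ∈ t, E z * Real.log (R / ‖z‖) := by
  unfold Curve.cnt
  apply finsum_mem_eq_sum_of_inter_support_eq
  ext z
  simp only [Set.mem_inter_iff, Set.mem_ofPred_eq, Function.mem_support, Finset.mem_coe]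
  constructor
  · rintro ⟨h3, h4⟩
    refine ⟨h2 z h3.1 h3.2 ?_, h4⟩
    intro h0
    exact h4 (by rw [h0, zero_mul])
  · rintro ⟨h3, h4⟩
    exact ⟨h1 z h3, h4⟩

theorem log_nonneg' {N : ℕ} (c : Curve N) {R : ℝ} {z : ℂ} (h1 : c.r0 + 1 ≤ ‖z‖) (h2 : ‖z‖ ≤ R) :
    0 ≤ Real.log (R / ‖z‖) := by
  have hr := c.hr0
  have hz : 0 < ‖z‖ := by linarith
  apply Real.log_nonneg
  rw [le_div_iff₀ hz, one_mul]
  exact h2

theorem t_cnt : St_cnt := by
  intro N c
  classical
  refine ⟨?_, ?_, ?_, ?_⟩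
  · intro E E' hE hE'
    have hF : ∀ R, ∃ t : Finset ℂ, (∀ z ∈ t, c.r0 + 1 ≤ ‖z‖ ∧ ‖z‖ ≤ R) ∧
        ∀ z, c.r0 + 1 ≤ ‖z‖ → ‖z‖ ≤ R → (E z ≠ 0 ∨ E' z ≠ 0) → z ∈ t := by
      intro R
      refine ⟨(hE R).toFinset ∪ (hE' R).toFinset, ?_, ?_⟩
      · intro z hz
        rw [Finset.mem_union, Set.Finite.mem_toFinset, Set.Finite.mem_toFinset] at hz
        rcases hz with hz | hz
        · exact ⟨hz.1, hz.2.1⟩
        · exact ⟨hz.1, hz.2.1⟩
      · intro z h1 h2 h3
        rw [Finset.mem_union, Set.Finite.mem_toFinset, Set.Finite.mem_toFinset]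
        rcases h3 with h3 | h3
        · exact Or.inl ⟨h1, h2, h3⟩
        · exact Or.inr ⟨h1, h2, h3⟩
    have hne : ∀ z, E z + E' z ≠ 0 → (E z ≠ 0 ∨ E' z ≠ 0) := by
      intro z hz
      by_contra hcon
      push Not at hcon
      exact hz (by rw [hcon.1, hcon.2, add_zero])
    refine ⟨fun R => ?_, fun R => ?_⟩
    · obtain ⟨t, _, ht⟩ := hF R
      exact t.finite_toSet.subset fun z hz => ht z hz.1 hz.2.1 (hne z hz.2.2)
    · obtain ⟨t, ht1, ht2⟩ := hF R
      rw [cnt_eq c (fun z => E z + E' z) R t ht1 (fun z a b d => ht2 z a b (hne z d)),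
        cnt_eq c E R t ht1 (fun z a b d => ht2 z a b (Or.inl d)),
        cnt_eq c E' R t ht1 (fun z a b d => ht2 z a b (Or.inr d)), ← Finset.sum_add_distrib]
      exact Finset.sum_congr rfl fun z _ => by ring
  · intro a E hE
    have hne : ∀ z, a * E z ≠ 0 → E z ≠ 0 := fun z hz h0 => hz (by rw [h0, mul_zero])
    refine ⟨fun R => ?_, fun R => ?_⟩
    · exact (hE R).subset fun z hz => ⟨hz.1, hz.2.1, hne z hz.2.2⟩
    · have h1 : ∀ z ∈ (hE R).toFinset, c.r0 + 1 ≤ ‖z‖ ∧ ‖z‖ ≤ R := fun z hz => by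
        rw [Set.Finite.mem_toFinset] at hz
        exact ⟨hz.1, hz.2.1⟩
      have h2 : ∀ z, c.r0 + 1 ≤ ‖z‖ → ‖z‖ ≤ R → E z ≠ 0 → z ∈ (hE R).toFinset :=
        fun z a b d => by
          rw [Set.Finite.mem_toFinset]
          exact ⟨a, b, d⟩
      rw [cnt_eq c (fun z => a * E z) R _ h1 (fun z a b d => h2 z a b (hne z d)),
        cnt_eq c E R _ h1 h2, Finset.mul_sum]
      exact Finset.sum_congr rfl fun z _ => by ring
  · intro E E' hE hE' hle R
    have h1 : ∀ z ∈ (hE R).toFinset ∪ (hE' R).toFinset, c.r0 + 1 ≤ ‖z‖ ∧ ‖z‖ ≤ R := by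
      intro z hz
      rw [Finset.mem_union, Set.Finite.mem_toFinset, Set.Finite.mem_toFinset] at hz
      rcases hz with hz | hz
      · exact ⟨hz.1, hz.2.1⟩
      · exact ⟨hz.1, hz.2.1⟩
    rw [cnt_eq c E R ((hE R).toFinset ∪ (hE' R).toFinset) h1 (fun z a b d => by
        rw [Finset.mem_union, Set.Finite.mem_toFinset]
        exact Or.inl ⟨a, b, d⟩),
      cnt_eq c E' R ((hE R).toFinset ∪ (hE' R).toFinset) h1 (fun z a b d => by
        rw [Finset.mem_union, Set.Finite.mem_toFinset, Set.Finite.mem_toFinset]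
        exact Or.inr ⟨a, b, d⟩)]
    apply Finset.sum_le_sum
    intro z hz
    exact mul_le_mul_of_nonneg_right (hle z (h1 z hz).1) (log_nonneg' c (h1 z hz).1 (h1 z hz).2)
  · intro E E' hE hle R
    apply (hE R).subset
    intro z hz
    refine ⟨hz.1, hz.2.1, ?_⟩
    intro h0
    have h3 := hle z hz.1
    rw [h0, abs_zero] at h3
    exact hz.2.2 (abs_eq_zero.mp (le_antisymm h3 (abs_nonneg _)))

theorem cnt_sum (hc : St_cnt) {N : ℕ} (c : Curve N) {ι : Type} (s : Finset ι) (E : ι → ℂ → ℝ)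
    (hE : ∀ i, c.LocFin (E i)) : c.LocFin (fun z => ∑ i ∈ s, E i z) ∧
      ∀ R, c.cnt (fun z => ∑ i ∈ s, E i z) R = ∑ i ∈ s, c.cnt (E i) R := by
  classical
  obtain ⟨h1, h2, h3, h4⟩ := hc N c
  induction s using Finset.induction_on with
  | empty =>
    simp only [Finset.sum_empty]
    have h0 : c.LocFin (fun _ => (0 : ℝ)) := by
      intro R
      apply Set.finite_empty.subset
      rintro z ⟨_, _, h⟩
      exact absurd rfl h
    refine ⟨h0, fun R => ?_⟩
    have := (h2 0 _ h0).2 R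
    simpa using this
  | insert a s ha ih =>
    simp only [Finset.sum_insert ha]
    refine ⟨(h1 _ _ (hE a) ih.1).1, fun R => ?_⟩
    rw [(h1 _ _ (hE a) ih.1).2 R, ih.2 R]

theorem lam_add {N : ℕ} (c : Curve N) (z : ℂ) (m m' : Fin N → ℤ) :
    c.lam z (m + m') = c.lam z m + c.lam z m' := by
  unfold Curve.lam
  rw [← Finset.sum_add_distrib]
  exact Finset.sum_congr rfl fun i _ => by rw [Pi.add_apply]; push_cast; ring

theorem del_add {N : ℕ} (c : Curve N) (z : ℂ) (m m' : Fin N → ℤ) :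
    c.del z (m + m') = c.del z m + c.del z m' := by
  unfold Curve.del
  rw [← Finset.sum_add_distrib]
  exact Finset.sum_congr rfl fun i _ => by rw [Pi.add_apply]; ring

theorem lam_smul {N : ℕ} (c : Curve N) (z : ℂ) (k : ℤ) (m : Fin N → ℤ) :
    c.lam z (k • m) = k * c.lam z m := by
  unfold Curve.lam
  rw [Finset.mul_sum]
  exact Finset.sum_congr rfl fun i _ => by rw [Pi.smul_apply, smul_eq_mul]; push_cast; ring

theorem del_smul {N : ℕ} (c : Curve N) (z : ℂ) (k : ℤ) (m : Fin N → ℤ) :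
    c.del z (k • m) = k * c.del z m := by
  unfold Curve.del
  rw [Finset.mul_sum]
  exact Finset.sum_congr rfl fun i _ => by rw [Pi.smul_apply, smul_eq_mul]; ring

theorem del_single {N : ℕ} (c : Curve N) (z : ℂ) (i : Fin N) :
    c.del z (Pi.single i 1) = c.oX i.succ z - c.oX 0 z := by
  classical
  unfold Curve.del
  rw [Finset.sum_eq_single i]
  · rw [Pi.single_eq_same, one_mul]
  · intro j _ hj
    rw [Pi.single_eq_of_ne hj, zero_mul]
  · intro h
    exact absurd (Finset.mem_univ i) h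

theorem sphere_sub {N : ℕ} (c : Curve N) {R : ℝ} (hR : c.r0 + 2 ≤ R) :
    sphere (0 : ℂ) R ⊆ Ext c.r0 := by
  intro z hz
  rw [mem_sphere_zero_iff_norm] at hz
  change c.r0 < ‖z‖
  rw [hz]
  linarith

theorem ci_lam {N : ℕ} (c : Curve N) {R : ℝ} (hR : c.r0 + 2 ≤ R) (m : Fin N → ℤ) :
    CircleIntegrable (fun z => c.lam z m) 0 R := by
  have hr := c.hr0
  have hX : ∀ i, CircleIntegrable (fun z => Real.log ‖c.X i z‖) 0 R := by
    intro i
    apply MeromorphicOn.circleIntegrable_log_norm_of_nonneg _ (by linarith)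
    intro z hz
    exact (c.an i z (sphere_sub c hR hz)).meromorphicAt
  unfold Curve.lam
  have h1 : (fun z => ∑ i, (m i : ℝ) * (Real.log ‖c.X i.succ z‖ - Real.log ‖c.X 0 z‖))
      = ∑ i, (m i : ℝ) • ((fun z => Real.log ‖c.X i.succ z‖) - fun z => Real.log ‖c.X 0 z‖) := by
    funext z
    simp [Finset.sum_apply]
  rw [h1]
  apply CircleIntegrable.sum
  intro i _
  exact ((hX i.succ).sub (hX 0)).const_smul

theorem t_ht : St_cnt → St_ord → St_ht := by
  intro hc ho N c
  classical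
  obtain ⟨hc1, hc2, hc3, hc4⟩ := hc N c
  obtain ⟨_, _, _, _, _, _, hbad, hdel⟩ := ho N c
  have hr := c.hr0
  have hdel' : ∀ m : Fin N → ℤ, c.LocFin (fun z => ((|c.del z m| : ℤ) : ℝ)) := by
    intro m
    apply hc4 _ _ (hdel m)
    intro z _
    rw [Int.cast_abs, abs_abs]
  have habs : ∀ m : Fin N → ℤ, ∀ R : ℝ, c.r0 + 2 ≤ R →
      CircleIntegrable (fun z => |c.lam z m|) 0 R := fun m R hR => (ci_lam c hR m).abs
  have hzero : c.LocFin (fun _ => (0 : ℝ)) := by
    intro R
    apply Set.finite_empty.subset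
    rintro z ⟨_, _, h⟩
    exact absurd rfl h
  have hcz : ∀ R, c.cnt (fun _ => (0 : ℝ)) R = 0 := by
    intro R
    have := (hc2 0 _ hzero).2 R
    simpa using this
  have hcnn : ∀ (E : ℂ → ℝ), c.LocFin E → (∀ z, 0 ≤ E z) → ∀ R, 0 ≤ c.cnt E R := by
    intro E hE h0 R
    rw [← hcz R]
    exact hc3 _ _ hzero hE (fun z _ => h0 z) R
  have hnn : ∀ R : ℝ, c.r0 + 2 ≤ R → ∀ m, 0 ≤ c.ht m R := by
    intro R hR m
    unfold Curve.ht
    apply add_nonneg
    · exact Real.circleAverage_nonneg_of_nonneg fun z _ => abs_nonneg _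
    · apply hcnn _ (hdel' m)
      intro z
      exact_mod_cast abs_nonneg (c.del z m)
  have hadd : ∀ R : ℝ, c.r0 + 2 ≤ R → ∀ m m', c.ht (m + m') R ≤ c.ht m R + c.ht m' R := by
    intro R hR m m'
    unfold Curve.ht
    have e1 : Real.circleAverage (fun z => |c.lam z (m + m')|) 0 R ≤
        Real.circleAverage (fun z => |c.lam z m|) 0 R
          + Real.circleAverage (fun z => |c.lam z m'|) 0 R := by
      rw [← Real.circleAverage_fun_add (habs m R hR) (habs m' R hR)]
      apply Real.circleAverage_mono (habs _ R hR) ((habs m R hR).add (habs m' R hR))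
      intro z _
      rw [lam_add]
      exact abs_add_le _ _
    have e2 : c.cnt (fun z => ((|c.del z (m + m')| : ℤ) : ℝ)) R ≤
        c.cnt (fun z => ((|c.del z m| : ℤ) : ℝ)) R + c.cnt (fun z => ((|c.del z m'| : ℤ) : ℝ)) R := by
      rw [← (hc1 _ _ (hdel' m) (hdel' m')).2 R]
      apply hc3 _ _ (hdel' _) (hc1 _ _ (hdel' m) (hdel' m')).1
      intro z _
      rw [del_add]
      exact_mod_cast abs_add_le (c.del z m) (c.del z m')
    linarith
  have hsm : ∀ R : ℝ, c.r0 + 2 ≤ R → ∀ (k : ℤ) (m), c.ht (k • m) R = |(k : ℝ)| * c.ht m R := by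
    intro R hR k m
    unfold Curve.ht
    have e1 : (fun z => |c.lam z (k • m)|) = fun z => |(k : ℝ)| • |c.lam z m| := by
      funext z
      rw [lam_smul, abs_mul, smul_eq_mul]
    have e2 : (fun z => ((|c.del z (k • m)| : ℤ) : ℝ))
        = fun z => |(k : ℝ)| * ((|c.del z m| : ℤ) : ℝ) := by
      funext z
      rw [del_smul, abs_mul]
      push_cast
      ring
    rw [e1, e2, Real.circleAverage_fun_smul, (hc2 _ _ (hdel' m)).2 R, smul_eq_mul]
    ring
  have hch : ∀ R : ℝ, c.r0 + 2 ≤ R → 0 ≤ c.ch R := fun R hR =>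
    Finset.sum_nonneg fun i _ => hnn R hR _
  have hle : ∀ R : ℝ, c.r0 + 2 ≤ R → ∀ m, c.ht m R ≤ (∑ i, |(m i : ℝ)|) * c.ch R := by
    intro R hR m
    have hsum : ∀ s : Finset (Fin N), c.ht (∑ i ∈ s, m i • (Pi.single i 1 : Fin N → ℤ)) R ≤
        ∑ i ∈ s, |(m i : ℝ)| * c.ht (Pi.single i 1) R := by
      intro s
      induction s using Finset.induction_on with
      | empty =>
        rw [Finset.sum_empty, Finset.sum_empty]
        have h0 := hsm R hR 0 (0 : Fin N → ℤ)
        rw [zero_smul] at h0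
        rw [h0]
        simp
      | insert a s ha ih =>
        rw [Finset.sum_insert ha, Finset.sum_insert ha]
        refine (hadd R hR _ _).trans ?_
        rw [hsm R hR]
        linarith
    have hm : m = ∑ i, m i • (Pi.single i 1 : Fin N → ℤ) := by
      funext j
      rw [Finset.sum_apply, Finset.sum_eq_single j]
      · simp
      · intro i _ hi
        rw [Pi.smul_apply, Pi.single_eq_of_ne (Ne.symm hi), smul_zero]
      · intro h
        exact absurd (Finset.mem_univ j) h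
    have h1 := hsum Finset.univ
    rw [← hm] at h1
    refine h1.trans ?_
    rw [Finset.sum_mul]
    apply Finset.sum_le_sum
    intro i _
    apply mul_le_mul_of_nonneg_left _ (abs_nonneg _)
    exact Finset.single_le_sum (f := fun i : Fin N => c.ht (Pi.single i 1) R)
      (fun j _ => hnn R hR _) (Finset.mem_univ i)
  refine ⟨fun R hR => ⟨hnn R hR, hadd R hR, hsm R hR, hle R hR, hch R hR,
    fun m => ci_lam c hR m, fun f => ?_⟩, ?_⟩
  · apply MeromorphicOn.circleIntegrable_log_norm_of_nonneg _ (by linarith)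
    intro z hz
    exact c.val_mero f z (sphere_sub c hR hz)
  · intro μ hμ R hR
    have hsum := cnt_sum hc c Finset.univ (fun (i : Fin N) z =>
      ((|c.del z (Pi.single i 1)| : ℤ) : ℝ)) (fun i => hdel' _)
    have e1 : c.cnt (fun z => ∑ i : Fin N, ((|c.del z (Pi.single i 1)| : ℤ) : ℝ)) R ≤ c.ch R := by
      rw [hsum.2 R]
      unfold Curve.ch
      apply Finset.sum_le_sum
      intro i _
      unfold Curve.ht
      have : 0 ≤ Real.circleAverage (fun z => |c.lam z (Pi.single i 1)|) 0 R :=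
        Real.circleAverage_nonneg_of_nonneg fun z _ => abs_nonneg _
      linarith
    refine le_trans ?_ e1
    rw [← (hc2 _ _ hbad).2 R]
    apply hc3 _ _ (hc2 _ _ hbad).1 hsum.1
    intro z hz
    have hzE : z ∈ Ext c.r0 := by
      change c.r0 < ‖z‖
      linarith
    have hnonneg : ∀ i : Fin N, (0 : ℝ) ≤ ((|c.del z (Pi.single i 1)| : ℤ) : ℝ) := fun i => by
      exact_mod_cast abs_nonneg (c.del z (Pi.single i 1))
    have htop : ∀ i, analyticOrderAt (c.X i) z ≠ ⊤ := by
      intro i h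
      rw [analyticOrderAt_eq_top] at h
      have h2 := c.X_punct i hzE
      have h3 : ∀ᶠ w in 𝓝[≠] z, c.X i w = 0 := nhdsWithin_le_nhds h
      obtain ⟨w, hw1, hw2⟩ := (h2.and h3).exists
      exact hw1 hw2
    have hge : ∀ i, c.X i z = 0 → (μ : ℤ) ≤ c.oX i z := by
      intro i h
      have h1 := hμ i z hzE h
      unfold Curve.oX
      have h2 : ((analyticOrderAt (c.X i) z).toNat : ℕ∞) = analyticOrderAt (c.X i) z :=
        ENat.natCast_toNat (htop i)
      rw [← h2] at h1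
      have h3 : μ ≤ (analyticOrderAt (c.X i) z).toNat := by exact_mod_cast h1
      exact_mod_cast h3
    have hz0 : ∀ i, c.X i z ≠ 0 → c.oX i z = 0 := by
      intro i h
      unfold Curve.oX
      have h1 : analyticOrderAt (c.X i) z = 0 := (c.an i z hzE).analyticOrderAt_eq_zero.mpr h
      rw [h1]
      rfl
    by_cases hb : ∃ i, c.X i z = 0
    · have hbz : c.bad z = 1 := by
        unfold Curve.bad
        rw [if_pos hb]
      rw [hbz, Int.cast_one, mul_one]
      obtain ⟨i, hi⟩ : ∃ i : Fin N, (μ : ℤ) ≤ |c.del z (Pi.single i 1)| := by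
        by_cases h0 : c.X 0 z = 0
        · obtain ⟨j, hj⟩ := c.ncz z hzE
          have hj0 : j ≠ 0 := by
            rintro rfl
            exact hj h0
          obtain ⟨i, rfl⟩ := Fin.exists_succ_eq.mpr hj0
          refine ⟨i, ?_⟩
          rw [del_single, hz0 _ hj, zero_sub, abs_neg]
          exact (hge 0 h0).trans (le_abs_self _)
        · obtain ⟨j, hj⟩ := hb
          have hj0 : j ≠ 0 := by
            rintro rfl
            exact h0 hj
          obtain ⟨i, rfl⟩ := Fin.exists_succ_eq.mpr hj0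
          refine ⟨i, ?_⟩
          rw [del_single, hz0 0 h0, sub_zero]
          exact (hge _ hj).trans (le_abs_self _)
      have h1 : (μ : ℝ) ≤ ((|c.del z (Pi.single i 1)| : ℤ) : ℝ) := by exact_mod_cast hi
      exact h1.trans (Finset.single_le_sum
        (f := fun i : Fin N => ((|c.del z (Pi.single i 1)| : ℤ) : ℝ))
        (fun j _ => hnonneg j) (Finset.mem_univ i))
    · have hbz : c.bad z = 0 := by
        unfold Curve.bad
        rw [if_neg hb]
      rw [hbz, Int.cast_zero, mul_zero]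
      exact Finset.sum_nonneg fun i _ => hnonneg i

end Pool.Agent.Y419.OG
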