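import Pool.Agent.Y192.OG.StA

set_option autoImplicit false

namespace Pool.Agent.Y419.OG

open Pool.Agent.Y192.OG
open MvPolynomial

theorem D_prod {R : Type} [CommRing R] [Algebra ℂ R] (D : Derivation ℂ R R) {b : ℕ}
    (t : Fin b → Rˣ) (β : Fin b → ℕ) (s : Finset (Fin b)) :
    D (∏ i ∈ s, (t i : R) ^ β i) = (∏ i ∈ s, (t i : R) ^ β i) *
      ∑ j ∈ s, (β j : R) * (((t j)⁻¹ : Rˣ) : R) * D (t j : R) := by
  classical
  induction s using Finset.induction_on with
  | empty => simp
  | insert a s ha ih =>
    rw [Finset.prod_insert ha, Finset.sum_insert ha, Derivation.leibniz, ih,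
      Derivation.leibniz_pow]
    simp only [smul_eq_mul, nsmul_eq_mul]
    have h1 : (β a : R) * ((t a : R) ^ (β a - 1) * D (t a : R)) =
        (t a : R) ^ β a * ((β a : R) * (((t a)⁻¹ : Rˣ) : R) * D (t a : R)) := by
      rcases Nat.eq_zero_or_pos (β a) with h0 | hpos
      · rw [h0]; simp
      · obtain ⟨n, hn⟩ : ∃ n, β a = n + 1 := ⟨β a - 1, by omega⟩
        rw [hn, Nat.add_sub_cancel, pow_succ]
        have h2 : (t a : R) * (((t a)⁻¹ : Rˣ) : R) = 1 := Units.mul_inv _
        calc ((n + 1 : ℕ) : R) * ((t a : R) ^ n * D (t a : R))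
            = ((t a : R) * (((t a)⁻¹ : Rˣ) : R)) *
              (((n + 1 : ℕ) : R) * ((t a : R) ^ n * D (t a : R))) := by rw [h2, one_mul]
          _ = _ := by ring
    rw [h1]
    ring

theorem t_DPeval : St_DPeval := by
  intro R _ _ D b t P
  classical
  constructor
  · rw [DP, map_sum, eval_eq', map_sum]
    apply Finset.sum_congr rfl
    intro β _
    rw [eval_monomial, Derivation.leibniz, D_prod D t (fun i => β i) Finset.univ]
    simp only [smul_eq_mul]
    rw [Finsupp.prod_fintype β (fun i n => (t i : R) ^ n) (fun i => pow_zero _)]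
    ring
  · intro i
    rw [degreeOf_le_iff]
    intro m hm
    have hmP : m ∈ P.support := by
      by_contra hcon
      rw [mem_support_iff] at hm
      apply hm
      rw [DP, coeff_sum]
      apply Finset.sum_eq_zero
      intro β hβ
      rw [coeff_monomial, if_neg]
      rintro rfl
      exact hcon hβ
    exact (degreeOf_le_iff.mp le_rfl) m hmP

end Pool.Agent.Y419.OG
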