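import Pool.Agent.Y192.OG.StA

set_option autoImplicit false

namespace Pool.Agent.Y419.OG

open Pool.Agent.Y192.OG
open scoped Pointwise

theorem mem_pow_prod {A : Type} [CommRing A] [DecidableEq A] (S : Finset A) (n : ℕ) :
    ∀ x ∈ (S : Set A) ^ n, ∃ f : A → ℕ, (∀ s, f s ≤ n) ∧ x = ∏ s ∈ S, s ^ f s := by
  induction n with
  | zero =>
    intro x hx
    rw [pow_zero, Set.mem_one] at hx
    exact ⟨fun _ => 0, fun _ => le_rfl, by simp [hx]⟩
  | succ n ih =>
    intro x hx
    rw [pow_succ] at hx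
    obtain ⟨y, hy, z, hz, rfl⟩ := Set.mem_mul.mp hx
    obtain ⟨f, hf, rfl⟩ := ih y hy
    have hz' : z ∈ S := by exact_mod_cast hz
    refine ⟨Function.update f z (f z + 1), fun s => ?_, ?_⟩
    · by_cases h : s = z
      · subst h
        rw [Function.update_self]
        have := hf s
        omega
      · rw [Function.update_of_ne h]
        have := hf s
        omega
    · rw [← Finset.mul_prod_erase S (fun s => s ^ f s) hz',
        ← Finset.mul_prod_erase S (fun s => s ^ Function.update f z (f z + 1) s) hz',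
        Function.update_self, pow_succ]
      have : ∏ x ∈ S.erase z, x ^ Function.update f z (f z + 1) x
          = ∏ x ∈ S.erase z, x ^ f x := by
        apply Finset.prod_congr rfl
        intro x hx
        rw [Function.update_of_ne (Finset.ne_of_mem_erase hx)]
      rw [this]
      ring

theorem pow_bound {A : Type} [CommRing A] [Nontrivial A] [Algebra ℂ A] (g : ℕ)
    (S : Finset A) (hS : S.card ≤ g) (h1 : (1 : A) ∈ S) (σ : ℕ) :
    FiniteDimensional ℂ ↥((Submodule.span ℂ (S : Set A)) ^ σ) ∧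
      1 ≤ Module.finrank ℂ ↥((Submodule.span ℂ (S : Set A)) ^ σ) ∧
      Module.finrank ℂ ↥((Submodule.span ℂ (S : Set A)) ^ σ) ≤ (σ + 1) ^ g := by
  classical
  let T : Finset A := Finset.univ.image
    (fun f : S → Fin (σ + 1) => ∏ s : S, (s : A) ^ ((f s : Fin (σ + 1)) : ℕ))
  have hsub : (S : Set A) ^ σ ⊆ (T : Set A) := by
    intro x hx
    obtain ⟨f, hf, rfl⟩ := mem_pow_prod S σ x hx
    simp only [T, Finset.coe_image, Finset.coe_univ, Set.image_univ, Set.mem_range]
    refine ⟨fun s => ⟨f s, by have := hf s; omega⟩, ?_⟩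
    exact Finset.prod_coe_sort S (fun s => s ^ f s)
  have hle : (Submodule.span ℂ (S : Set A)) ^ σ ≤ Submodule.span ℂ (T : Set A) := by
    rw [Submodule.span_pow]
    exact Submodule.span_mono hsub
  have hfd : FiniteDimensional ℂ ↥(Submodule.span ℂ (T : Set A)) :=
    FiniteDimensional.span_finset ℂ T
  have hfd' : FiniteDimensional ℂ ↥((Submodule.span ℂ (S : Set A)) ^ σ) :=
    Submodule.finiteDimensional_of_le hle
  refine ⟨hfd', ?_, ?_⟩
  · have hmem : (1 : A) ∈ (Submodule.span ℂ (S : Set A)) ^ σ := by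
      have := Submodule.pow_mem_pow (Submodule.span ℂ (S : Set A))
        (Submodule.subset_span (show (1 : A) ∈ (S : Set A) from by exact_mod_cast h1)) σ
      rwa [one_pow] at this
    have : Nontrivial ↥((Submodule.span ℂ (S : Set A)) ^ σ) :=
      ⟨⟨⟨1, hmem⟩, 0, fun h => one_ne_zero (congrArg Subtype.val h)⟩⟩
    exact Module.finrank_pos
  · calc Module.finrank ℂ ↥((Submodule.span ℂ (S : Set A)) ^ σ)
        ≤ Module.finrank ℂ ↥(Submodule.span ℂ (T : Set A)) := Submodule.finrank_mono hle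
      _ ≤ T.card := finrank_span_finset_le_card T
      _ ≤ (Finset.univ : Finset (S → Fin (σ + 1))).card := Finset.card_image_le
      _ = (σ + 1) ^ S.card := by simp
      _ ≤ (σ + 1) ^ g := Nat.pow_le_pow_right (Nat.succ_pos σ) hS

theorem t_grow : St_grow := by
  intro g η hη
  have hr : (1 : ℝ) < 1 + η := by linarith
  have hr0 : (0 : ℝ) < 1 + η := by linarith
  have ht := tendsto_pow_const_div_const_pow_of_one_lt g hr
  have hev := ht.eventually (gt_mem_nhds (show (0 : ℝ) < 1 / (1 + η) by positivity))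
  obtain ⟨N, hN⟩ := Filter.eventually_atTop.mp hev
  refine ⟨N, ?_⟩
  intro A _ _ _ S hS h1
  refine ⟨fun σ => pow_bound g S hS h1 σ, ?_⟩
  by_contra hcon
  push Not at hcon
  have key : ∀ σ ≤ N + 1, (1 + η) ^ σ ≤
      (Module.finrank ℂ ↥((Submodule.span ℂ (S : Set A)) ^ σ) : ℝ) := by
    intro σ
    induction σ with
    | zero =>
      intro _
      rw [pow_zero]
      exact_mod_cast (pow_bound g S hS h1 0).2.1
    | succ σ ih =>
      intro hσ
      have h2 := ih (by omega)
      have h3 := hcon σ (by omega)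
      calc (1 + η) ^ (σ + 1) = (1 + η) * (1 + η) ^ σ := by ring
        _ ≤ (1 + η) * (Module.finrank ℂ ↥((Submodule.span ℂ (S : Set A)) ^ σ) : ℝ) :=
            mul_le_mul_of_nonneg_left h2 hr0.le
        _ ≤ _ := h3.le
  have h4 := key (N + 1) le_rfl
  have h5 : (Module.finrank ℂ ↥((Submodule.span ℂ (S : Set A)) ^ (N + 1)) : ℝ)
      ≤ ((N + 2 : ℕ) : ℝ) ^ g := by
    exact_mod_cast (pow_bound g S hS h1 (N + 1)).2.2
  have h6 := hN (N + 2) (by omega)
  rw [div_lt_div_iff₀ (by positivity) hr0] at h6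
  have h7 : (1 + η) ^ (N + 2) = (1 + η) * (1 + η) ^ (N + 1) := by ring
  rw [one_mul, h7, mul_comm (((N + 2 : ℕ) : ℝ) ^ g)] at h6
  have h8 := lt_of_mul_lt_mul_left h6 hr0.le
  linarith

end Pool.Agent.Y419.OG
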