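import Pool.Agent.Y192.OG.StA

set_option autoImplicit false

namespace Pool.Agent.Y419.OG

open Pool.Agent.Y192.OG

theorem num_aux (b : ℕ) : ∀ d : Fin b → ℕ, ∃ C E : ℝ, 0 ≤ C ∧ 0 ≤ E ∧ ∀ K : ℕ, 1 ≤ K →
    (K : ℝ) ^ 2 * (∏ i, ((K : ℝ) + d i) + ∏ i, ((K : ℝ) - d i) - 2 * (K : ℝ) ^ b)
      ≤ C * (K : ℝ) ^ b ∧
    (K : ℝ) * (∏ i, ((K : ℝ) + d i) - ∏ i, ((K : ℝ) - d i)) ≤ E * (K : ℝ) ^ b := by
  induction b with
  | zero =>
    intro d
    refine ⟨0, 0, le_rfl, le_rfl, fun K hK => ?_⟩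
    simp only [Finset.univ_eq_empty, Finset.prod_empty, pow_zero]
    constructor <;> norm_num
  | succ b ih =>
    intro d
    obtain ⟨C, E, hC, hE, h⟩ := ih (fun i => d i.succ)
    refine ⟨C + d 0 * E, E + d 0 * C + 2 * d 0, by positivity, by positivity, fun K hK => ?_⟩
    obtain ⟨h1, h2⟩ := h K hK
    have hK1 : (1 : ℝ) ≤ K := by exact_mod_cast hK
    have hd : (0 : ℝ) ≤ d 0 := by positivity
    rw [Fin.prod_univ_succ, Fin.prod_univ_succ]
    set P : ℝ := ∏ i : Fin b, ((K : ℝ) + d i.succ) with hP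
    set M : ℝ := ∏ i : Fin b, ((K : ℝ) - d i.succ) with hM
    have hKb : (0 : ℝ) ≤ (K : ℝ) ^ b := by positivity
    have hf : (K : ℝ) * (P + M - 2 * (K : ℝ) ^ b) ≤ C * (K : ℝ) ^ b := by
      by_cases hpos : 0 ≤ P + M - 2 * (K : ℝ) ^ b
      · refine le_trans ?_ h1
        apply mul_le_mul_of_nonneg_right _ hpos
        nlinarith
      · push Not at hpos
        have : (K : ℝ) * (P + M - 2 * (K : ℝ) ^ b) ≤ 0 :=
          mul_nonpos_of_nonneg_of_nonpos (by linarith) hpos.le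
        exact this.trans (by positivity)
    constructor
    · have e1 := mul_le_mul_of_nonneg_left h1 (show (0 : ℝ) ≤ K by linarith)
      have e2 := mul_le_mul_of_nonneg_left h2 (show (0 : ℝ) ≤ K * d 0 by positivity)
      calc (K : ℝ) ^ 2 * (((K : ℝ) + d 0) * P + ((K : ℝ) - d 0) * M - 2 * (K : ℝ) ^ (b + 1))
          = K * ((K : ℝ) ^ 2 * (P + M - 2 * (K : ℝ) ^ b)) + K * d 0 * (K * (P - M)) := by ring
        _ ≤ K * (C * (K : ℝ) ^ b) + K * d 0 * (E * (K : ℝ) ^ b) := add_le_add e1 e2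
        _ = (C + d 0 * E) * (K : ℝ) ^ (b + 1) := by ring
    · have e1 := mul_le_mul_of_nonneg_left h2 (show (0 : ℝ) ≤ K by linarith)
      have e2 := mul_le_mul_of_nonneg_left hf hd
      have e3 : (d 0 : ℝ) * (C * (K : ℝ) ^ b) ≤ d 0 * (C * (K : ℝ) ^ (b + 1)) := by
        apply mul_le_mul_of_nonneg_left _ hd
        apply mul_le_mul_of_nonneg_left _ hC
        exact pow_le_pow_right₀ hK1 (Nat.le_succ b)
      calc (K : ℝ) * (((K : ℝ) + d 0) * P - ((K : ℝ) - d 0) * M)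
          = K * (K * (P - M)) + d 0 * (K * (P + M - 2 * (K : ℝ) ^ b))
              + 2 * d 0 * (K : ℝ) ^ (b + 1) := by ring
        _ ≤ K * (E * (K : ℝ) ^ b) + d 0 * (C * (K : ℝ) ^ (b + 1))
              + 2 * d 0 * (K : ℝ) ^ (b + 1) := by linarith
        _ = (E + d 0 * C + 2 * d 0) * (K : ℝ) ^ (b + 1) := by ring

theorem t_num : St_num := by
  intro b d
  obtain ⟨C, E, hC, _, h⟩ := num_aux b d
  exact ⟨C, hC, fun K hK _ => (h K hK).1⟩

end Pool.Agent.Y419.OG
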