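import Pool.Agent.Y192.OG.StA

set_option autoImplicit false

namespace Pool.Agent.Y419.OG

open Pool.Agent.Y192.OG
open MvPolynomial

theorem unit_of_degreeOf {K : Type} [Field K] (b : ℕ) (p : MvPolynomial (Fin b) K) (hp : p ≠ 0)
    (h : ∀ i, p.degreeOf i = 0) : IsUnit p := by
  classical
  have hC : p = C (coeff 0 p) := by
    ext m
    rw [coeff_C]
    by_cases hm : 0 = m
    · rw [if_pos hm, hm]
    · rw [if_neg hm]
      by_contra hne
      have hmem : m ∈ p.support := mem_support_iff.mpr hne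
      apply hm
      symm
      ext i
      have := (degreeOf_le_iff.mp (h i).le) m hmem
      simpa using this
  rw [hC]
  apply IsUnit.map
  apply IsUnit.mk0
  intro h0
  apply hp
  rw [hC, h0, C_0]

theorem t_sqf : St_sqf := by
  intro K _ _ b P hP hX hB
  rw [squarefree_iff_irreducible_sq_not_dvd_of_ne_zero hP]
  intro π hπ hdvd
  have hprime : Prime π := hπ.prime
  have hex : ∃ i, π.degreeOf i ≠ 0 := by
    by_contra hcon
    push Not at hcon
    exact hπ.not_isUnit (unit_of_degreeOf b π hπ.ne_zero hcon)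
  obtain ⟨i, hi⟩ := hex
  obtain ⟨ρ, hρ⟩ := hdvd
  obtain ⟨A, B, Q, k, hQ0, hQd, hrel⟩ := hB i
  have hπP : π ∣ P := ⟨π * ρ, by rw [hρ]; ring⟩
  have hπd : π ∣ pderiv i P := by
    have : P = π * (π * ρ) := by rw [hρ]; ring
    rw [this, Derivation.leibniz, smul_eq_mul, smul_eq_mul, Derivation.leibniz, smul_eq_mul,
      smul_eq_mul]
    exact ⟨π * pderiv i ρ + ρ * pderiv i π + ρ * pderiv i π, by ring⟩
  have hπQ : π ∣ X i ^ k * Q := by
    rw [← hrel]
    exact dvd_add (hπP.mul_left A) ((hπd.mul_left (X i)).mul_left B)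
  rcases hprime.dvd_or_dvd hπQ with h | h
  · have h1 : π ∣ X i := hprime.dvd_of_dvd_pow h
    have hXi : Irreducible (X i : MvPolynomial (Fin b) K) := X_prime.irreducible
    have h2 : X i ∣ π := by
      obtain ⟨u, hu⟩ := h1
      rcases hXi.isUnit_or_isUnit hu with h3 | h3
      · exact absurd h3 hπ.not_isUnit
      · rw [hu]
        exact (associated_mul_unit_left π u h3).dvd
    exact hX i (h2.trans hπP)
  · obtain ⟨τ, hτ⟩ := h
    have hτ0 : τ ≠ 0 := by
      rintro rfl
      exact hQ0 (by rw [hτ, mul_zero])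
    have := degreeOf_mul_eq (n := i) hπ.ne_zero hτ0
    rw [← hτ, hQd] at this
    omega

end Pool.Agent.Y419.OG
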