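import Pool.Agent.Y192.OG.StB

set_option autoImplicit false

namespace Pool.Agent.Y419.OG

open Pool.Agent.Y192.OG
open Filter Metric Set Topology Pool.Agent.W603.BP Pool.Agent.H159R3.NV

/-- the value of the Wronskian at a point of `U` -/
theorem val_wrd (ho : St_ord) {N : ℕ} (c : Curve N) {M : ℕ} (f : Fin M → c.Mr) {z : ℂ}
    (hz : z ∈ c.U) :
    c.val (c.wrd f) z = (Matrix.of fun b l : Fin M => iteratedDeriv (l : ℕ) (c.val (f b)) z).det := by
  let ev : c.Mr →+* ℂ := (Pi.evalRingHom (fun _ : c.U => ℂ) ⟨z, hz⟩).comp (c.Mr).val.toRingHom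
  have hev : ∀ a : c.Mr, ev a = c.val a z := fun a => by
    unfold Curve.val
    rw [c.ext_of_mem _ hz]
    rfl
  rw [← hev]
  unfold Curve.wrd
  rw [RingHom.map_det]
  congr 1
  ext b l
  simp only [RingHom.mapMatrix_apply, Matrix.map_apply, Matrix.of_apply]
  rw [hev]
  exact (ho N c).2.2.2.2.1 z hz (f b) l

theorem ord_prod (ho : St_ord) {N : ℕ} (c : Curve N) {z : ℂ} (hz : z ∈ Ext c.r0) {ι : Type}
    (s : Finset ι) (g : ι → c.Mr) (k : ι → ℤ) (h : ∀ i ∈ s, (k i : WithTop ℤ) ≤ c.ord z (g i)) :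
    ((∑ i ∈ s, k i : ℤ) : WithTop ℤ) ≤ c.ord z (∏ i ∈ s, g i) := by
  classical
  obtain ⟨h1, _, _, _, _, h6⟩ := (ho N c).1 z hz
  induction s using Finset.induction_on with
  | empty =>
    rw [Finset.prod_empty, Finset.sum_empty, ← c.mon_zero, h6]
    unfold Curve.del
    simp
  | insert a s ha ih =>
    rw [Finset.prod_insert ha, Finset.sum_insert ha, h1, WithTop.coe_add]
    exact add_le_add (h a (Finset.mem_insert_self a s))
      (ih fun i hi => h i (Finset.mem_insert_of_mem hi))

theorem ord_zero {N : ℕ} (c : Curve N) (z : ℂ) : c.ord z (0 : c.Mr) = ⊤ := by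
  unfold Curve.ord
  rw [meromorphicOrderAt_eq_top_iff]
  apply Filter.Eventually.of_forall
  intro w
  unfold Curve.val
  by_cases h : w ∈ c.U
  · rw [c.ext_of_mem _ h]
    rfl
  · rw [c.ext_of_notMem _ h]

theorem ord_sum (ho : St_ord) {N : ℕ} (c : Curve N) {z : ℂ} (hz : z ∈ Ext c.r0) {ι : Type}
    (s : Finset ι) (g : ι → c.Mr) (k : WithTop ℤ) (h : ∀ i ∈ s, k ≤ c.ord z (g i)) :
    k ≤ c.ord z (∑ i ∈ s, g i) := by
  classical
  obtain ⟨_, h2, _⟩ := (ho N c).1 z hz
  induction s using Finset.induction_on with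
  | empty =>
    rw [Finset.sum_empty, ord_zero]
    exact le_top
  | insert a s ha ih =>
    rw [Finset.sum_insert ha]
    exact (le_min (h a (Finset.mem_insert_self a s))
      (ih fun i hi => h i (Finset.mem_insert_of_mem hi))).trans (h2 _ _)

theorem ord_iter (ho : St_ord) {N : ℕ} (c : Curve N) {z : ℂ} (hz : z ∈ Ext c.r0) (f : c.Mr)
    (k : ℤ) (h : (k : WithTop ℤ) ≤ c.ord z f) (l : ℕ) :
    ((k - l : ℤ) : WithTop ℤ) ≤ c.ord z ((c.Dr : c.Mr → c.Mr)^[l] f) := by
  obtain ⟨_, _, _, _, h5, _⟩ := (ho N c).1 z hz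
  induction l with
  | zero => simpa using h
  | succ l ih =>
    rw [Function.iterate_succ_apply']
    have h1 := h5 _ _ ih
    have e : (k - ((l + 1 : ℕ) : ℤ)) = k - l - 1 := by push_cast; ring
    rw [e]
    exact h1

theorem ord_wrd (ho : St_ord) {N : ℕ} (c : Curve N) {M : ℕ} (f : Fin M → c.Mr) {z : ℂ}
    (hz : z ∈ Ext c.r0) (k : Fin M → ℤ) (hk : ∀ j, (k j : WithTop ℤ) ≤ c.ord z (f j)) :
    ((∑ j, k j - (M : ℤ) ^ 2 : ℤ) : WithTop ℤ) ≤ c.ord z (c.wrd f) := by
  obtain ⟨_, _, h3, _⟩ := (ho N c).1 z hz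
  unfold Curve.wrd
  rw [Matrix.det_apply]
  apply ord_sum ho c hz
  intro σ _
  have h1 : ((∑ j, k j - (M : ℤ) ^ 2 : ℤ) : WithTop ℤ) ≤ c.ord z (∏ i : Fin M,
      (Matrix.of fun b l : Fin M => ((c.Dr : c.Mr → c.Mr)^[(l : ℕ)]) (f b)) (σ i) i) := by
    refine le_trans ?_ (ord_prod ho c hz Finset.univ _ (fun i : Fin M => k (σ i) - (i : ℕ)) ?_)
    · have h2 : ∑ j, k j - (M : ℤ) ^ 2 ≤ ∑ i : Fin M, (k (σ i) - ((i : ℕ) : ℤ)) := by
        rw [Finset.sum_sub_distrib, Equiv.sum_comp σ k]
        have h4 : ∑ i : Fin M, ((i : ℕ) : ℤ) ≤ ∑ _i : Fin M, (M : ℤ) :=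
          Finset.sum_le_sum fun i _ => by exact_mod_cast i.2.le
        rw [Finset.sum_const, Finset.card_univ, Fintype.card_fin, nsmul_eq_mul] at h4
        have h5 : (M : ℤ) ^ 2 = M * M := by ring
        linarith
      exact_mod_cast h2
    · intro i _
      simp only [Matrix.of_apply]
      exact ord_iter ho c hz _ _ (hk _) _
  rcases Int.units_eq_one_or (Equiv.Perm.sign σ) with h | h
  · rw [h, one_smul]
    exact h1
  · rw [h, Units.neg_smul, one_smul]
    refine h1.trans ((h3 (-1) _).trans ?_)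
    rw [neg_smul, one_smul]

theorem an_fac {N : ℕ} (c : Curve N) {z : ℂ} (hz : z ∈ c.U) (f : c.Mr) (k : ℕ) :
    ((k : ℕ) : WithTop ℤ) ≤ c.ord z f ↔
      ∃ g : ℂ → ℂ, AnalyticAt ℂ g z ∧ ∀ᶠ w in 𝓝 z, c.val f w = (w - z) ^ k • g w := by
  unfold Curve.ord
  rw [(c.val_an f z hz).meromorphicOrderAt_eq, ← natCast_le_analyticOrderAt (c.val_an f z hz)]
  cases h : analyticOrderAt (c.val f) z with
  | top => simp
  | coe n =>
    rw [ENat.map_natCast]
    constructor
    · intro h1
      have h2 : ((k : ℤ) : WithTop ℤ) ≤ ((n : ℤ) : WithTop ℤ) := h1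
      exact_mod_cast h2
    · intro h1
      have h2 : k ≤ n := by exact_mod_cast h1
      have h3 : ((k : ℤ) : WithTop ℤ) ≤ ((n : ℤ) : WithTop ℤ) := by exact_mod_cast h2
      exact h3

theorem ord_wrd_U (ho : St_ord) {N : ℕ} (c : Curve N) {M : ℕ} (f : Fin M → c.Mr) {z : ℂ}
    (hz : z ∈ c.U) (k : ℕ) (hk : ∀ j, (k : WithTop ℤ) ≤ c.ord z (f j)) :
    ((M * k : ℕ) : WithTop ℤ) ≤ c.ord z (c.wrd f) := by
  rw [an_fac c hz]
  choose g hg1 hg2 using fun j => (an_fac c hz (f j) k).mp (hk j)
  refine ⟨fun w => (Matrix.of fun b l : Fin M => iteratedDeriv (l : ℕ) (g b) w).det, ?_, ?_⟩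
  · have : (fun w => (Matrix.of fun b l : Fin M => iteratedDeriv (l : ℕ) (g b) w).det)
        = fun w => ∑ σ : Equiv.Perm (Fin M), ((Equiv.Perm.sign σ : ℤ) : ℂ) *
          ∏ i : Fin M, iteratedDeriv (i : ℕ) (g (σ i)) w := by
      funext w
      rw [Matrix.det_apply']
      rfl
    rw [this]
    apply Finset.analyticAt_fun_sum
    intro σ _
    apply AnalyticAt.fun_mul analyticAt_const
    apply Finset.analyticAt_fun_prod
    intro i _
    have h7 : AnalyticAt ℂ (g (σ i)) z := hg1 (σ i)
    rw [iteratedDeriv_eq_iterate]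
    exact h7.iterated_deriv (i : ℕ)
  · have h1 : ∀ᶠ w in 𝓝 z, ∀ j, c.val (f j) w = (w - z) ^ k • g j w := by
      rw [Filter.eventually_all]
      exact hg2
    have h2 : ∀ᶠ w in 𝓝 z, ∀ j, AnalyticAt ℂ (g j) w := by
      rw [Filter.eventually_all]
      exact fun j => (hg1 j).eventually_analyticAt
    filter_upwards [h1.eventually_nhds, h2, c.U_open.mem_nhds hz] with w hw1 hw2 hw3
    rw [val_wrd ho c f hw3]
    have e1 : (Matrix.of fun b l : Fin M => iteratedDeriv (l : ℕ) (c.val (f b)) w)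
        = Matrix.of fun b l : Fin M => iteratedDeriv (l : ℕ) (fun y => (y - z) ^ k * g b y) w := by
      ext b l
      simp only [Matrix.of_apply]
      apply Filter.EventuallyEq.iteratedDeriv_eq
      filter_upwards [hw1] with y hy
      exact hy b
    rw [e1, scale_det (fun y => (y - z) ^ k) g w
      (by fun_prop) hw2, ← pow_mul, smul_eq_mul, mul_comm k M]

theorem t_wr : St_ring → St_ord → St_wr := by
  intro hr ho N c F r M f
  obtain ⟨hr1, hr2, hr3, _⟩ := hr N c
  refine ⟨?_, fun z hz k hk => ord_wrd ho c f hz k hk, fun z hz k hk => ord_wrd_U ho c f hz k hk,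
    ?_⟩
  · intro hli h0
    have hnz : NoZeroDivisors c.Mr := ⟨fun {a b} h => hr1 a b h⟩
    have hdom : IsDomain c.Mr := NoZeroDivisors.to_isDomain c.Mr
    obtain ⟨x, hx0, hx⟩ := wron_dep_abs c.Dr hr3 M f h0
    apply hx0
    funext i
    exact Fintype.linearIndependent_iff.mp hli x hx i
  · intro Φ w lm nu hC
    choose C hC0 hC1 using fun j => (hC j).1
    refine ⟨(Nat.factorial M) * ((Nat.factorial M) * 2 ^ M) ^ M * ∏ j, (C j + 1), ?_, ?_⟩
    · have h1 : 0 < ∏ j, (C j + 1) := Finset.prod_pos fun j _ => by linarith [hC0 j]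
      have h2 : (0 : ℝ) < Nat.factorial M := by exact_mod_cast Nat.factorial_pos M
      positivity
    · intro n z hz
      have he := r.he n
      have hU : ∀ y ∈ closedBall z (r.e n / 2), y ∈ c.U := fun y hy =>
        r.ne n z hz y (closedBall_subset_closedBall (by linarith [he.1]) hy)
      have hzU : z ∈ c.U := hU z (mem_closedBall_self (by linarith [he.1]))
      rw [val_wrd ho c f hzU]
      set S : ℝ := ∑ φ ∈ Φ, |c.lam z φ| with hS
      set ε := r.e n with hε
      set B : Fin M → ℝ := fun j => (C j + 1) * Real.exp (lm j z + w * S) * (1 / ε) ^ w with hB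
      have hB0 : ∀ j, 0 ≤ B j := fun j => by
        have := hC0 j
        have h3 : 0 ≤ 1 / ε := by have := he.1; positivity
        rw [hB]
        positivity
      have hder : ∀ b l : Fin M, ‖(Matrix.of fun b l : Fin M =>
          iteratedDeriv (l : ℕ) (c.val (f b)) z) b l‖
          ≤ (Nat.factorial M) * 2 ^ M * (1 / ε) ^ M * B b := by
        intro b l
        simp only [Matrix.of_apply]
        have h1 := Complex.norm_iteratedDeriv_le_of_forall_mem_sphere_norm_le (n := (l : ℕ))
          (c := z) (R := ε / 2) (C := B b) (f := c.val (f b)) (by linarith [he.1])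
          (by
            apply DifferentiableOn.diffContOnCl
            intro y hy
            exact (c.val_an (f b) y (hU y
              (closure_ball_subset_closedBall hy))).differentiableAt.differentiableWithinAt)
          (by
            intro y hy
            have h2 := hC1 b n z hz y (sphere_subset_closedBall hy)
            refine h2.trans ?_
            change C b * Real.exp (lm b z + w * S) * (1 / ε) ^ w
              ≤ (C b + 1) * Real.exp (lm b z + w * S) * (1 / ε) ^ w
            have h3 : 0 ≤ 1 / ε := by have := he.1; positivity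
            have h4 : C b ≤ C b + 1 := by linarith
            gcongr)
        refine h1.trans ?_
        have h2 : (Nat.factorial (l : ℕ) : ℝ) ≤ Nat.factorial M := by
          exact_mod_cast Nat.factorial_le l.2.le
        have h3 : 1 / (ε / 2) ^ (l : ℕ) ≤ 2 ^ M * (1 / ε) ^ M := by
          rw [← mul_pow]
          have e1 : 1 / (ε / 2) ^ (l : ℕ) = (2 * (1 / ε)) ^ (l : ℕ) := by
            rw [one_div, ← inv_pow]
            congr 1
            field_simp
          rw [e1]
          apply pow_le_pow_right₀ _ l.2.le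
          have h5 : 1 ≤ 1 / ε := by
            rw [le_div_iff₀ he.1]
            linarith [he.2]
          linarith
        have hBb := hB0 b
        have h6 : 0 ≤ 1 / (ε / 2) ^ (l : ℕ) := by have := he.1; positivity
        calc (Nat.factorial (l : ℕ) : ℝ) * B b / (ε / 2) ^ (l : ℕ)
            = (Nat.factorial (l : ℕ) : ℝ) * B b * (1 / (ε / 2) ^ (l : ℕ)) := by ring
          _ ≤ (Nat.factorial M : ℝ) * B b * (2 ^ M * (1 / ε) ^ M) := by
              apply mul_le_mul _ h3 h6 (by positivity)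
              exact mul_le_mul_of_nonneg_right h2 hBb
          _ = _ := by ring
      refine (det_bound _ _ hder).trans (le_of_eq ?_)
      rw [Finset.prod_mul_distrib, Finset.prod_const, Finset.card_univ, Fintype.card_fin, hB,
        Finset.prod_mul_distrib, Finset.prod_mul_distrib, ← Real.exp_sum, Finset.prod_const,
        Finset.card_univ, Fintype.card_fin, Finset.sum_add_distrib, Finset.sum_const,
        Finset.card_univ, Fintype.card_fin, nsmul_eq_mul]
      have e2 : (1 / ε) ^ (M * w + M ^ 2) = ((1 / ε) ^ M) ^ M * ((1 / ε) ^ w) ^ M := by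
        rw [← pow_mul, ← pow_mul, ← pow_add]
        congr 1
        ring
      have e3 : (M : ℝ) * (w * S) = M * w * S := by ring
      rw [e2, e3]
      ring

end Pool.Agent.Y419.OG
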